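import Pool.Agent.Helper70.MM.Goals

/-!
# MP_91ee6f_gt: the lower bound of the energy of a large sphere (packet MM-TH3)
-/

open MeasureTheory Set Metric
open scoped ENNReal RealInnerProductSpace Topology
open Pool.Agent.Results.MP_91ee6f_gt

namespace Pool.Agent.Helper89.MM

open Pool.Agent.Helper70.MM

theorem th3 (h1 : SPH1) (h2 : SPH2) (h4 : SPH4) (h5 : MINP) : TH3 := by
  intro n hn R hR
  have hlog : 0 < Real.log 5 := Real.log_pos (by norm_num)
  have hn0 : (0 : ℝ) < n := by exact_mod_cast hn
  have hR0 : 0 < R := lt_trans (by positivity) hR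
  have : Nonempty (Fin n) := ⟨⟨0, hn⟩⟩
  obtain ⟨e, he⟩ : ∃ e : En n, ‖e‖ = 1 :=
    ⟨EuclideanSpace.single (⟨0, hn⟩ : Fin n) (1 : ℝ), by simp⟩
  have : IsProbabilityMeasure (sphUnif n R) := (h1 n hn R).1
  have hx : ‖R • e‖ = R := by rw [norm_smul, he, mul_one, Real.norm_of_nonneg hR0.le]
  rw [← (h5 n hn R hR0).2.1 (R • e) hx]
  have hm : ENNReal.ofReal ((1 / 5 : ℝ) ^ n) ≤ (sphUnif n R) (closedBall (R • e) (R / 2)) := by
    have e1 : (sphUnif n 1).map (fun x => R • x) = sphUnif n R := by
      rw [(h2 n 1).2 R, mul_one]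
    rw [← e1, Measure.map_apply (by fun_prop) measurableSet_closedBall]
    refine (h4 n hn e he).trans (measure_mono ?_)
    intro y hy
    rw [mem_closedBall] at hy
    show R • y ∈ closedBall (R • e) (R / 2)
    rw [mem_closedBall, dist_smul₀, Real.norm_of_nonneg hR0.le]
    nlinarith
  have hm' : (1 / 5 : ℝ) ^ n ≤ (sphUnif n R).real (closedBall (R • e) (R / 2)) := by
    rw [Measure.real]
    exact (ENNReal.ofReal_le_iff_le_toReal (measure_ne_top _ _)).1 hm
  have hint : Integrable (fun y => Real.exp (-dist (R • e) y)) (sphUnif n R) := by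
    refine Integrable.mono' (integrable_const (1 : ℝ)) (by fun_prop) ?_
    filter_upwards with y
    rw [Real.norm_of_nonneg (Real.exp_pos _).le]
    exact Real.exp_le_one_iff.2 (by linarith [dist_nonneg (x := R • e) (y := y)])
  have hlow : Real.exp (-(R / 2)) * (1 / 5 : ℝ) ^ n ≤ potential (sphUnif n R) (R • e) := by
    calc Real.exp (-(R / 2)) * (1 / 5 : ℝ) ^ n
        ≤ Real.exp (-(R / 2)) * (sphUnif n R).real (closedBall (R • e) (R / 2)) :=
          mul_le_mul_of_nonneg_left hm' (Real.exp_pos _).le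
      _ = ∫ y in closedBall (R • e) (R / 2), Real.exp (-(R / 2)) ∂(sphUnif n R) := by
          rw [setIntegral_const, smul_eq_mul, mul_comm]
      _ ≤ ∫ y in closedBall (R • e) (R / 2), Real.exp (-dist (R • e) y) ∂(sphUnif n R) := by
          refine setIntegral_mono_on (integrable_const _) hint.integrableOn
            measurableSet_closedBall ?_
          intro y hy
          rw [mem_closedBall, dist_comm] at hy
          exact Real.exp_le_exp.2 (by linarith)
      _ ≤ potential (sphUnif n R) (R • e) :=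
          setIntegral_le_integral hint (Filter.Eventually.of_forall fun y => (Real.exp_pos _).le)
  refine lt_of_lt_of_le ?_ hlow
  have e5 : (1 / 5 : ℝ) ^ n = Real.exp (-(n * Real.log 5)) := by
    rw [Real.exp_neg, mul_comm, Real.exp_mul, Real.exp_log (by norm_num), Real.rpow_natCast,
      one_div, inv_pow]
  rw [e5, ← Real.exp_add]
  exact Real.exp_lt_exp.2 (by linarith)

end Pool.Agent.Helper89.MM
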