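import Pool.Agent.Helper70.MM.Goals5

/-!
# Project MM, packet MM5-MONO
-/

open MeasureTheory Set Metric
open scoped ENNReal RealInnerProductSpace Topology
open Pool.Agent.Results.MP_91ee6f_gt

namespace Pool.Agent.Helper89.MM

open Pool.Agent.Helper70.MM

theorem mono : PDER → SDER → GPOS → MONO := by
  intro hP hS hG n hn
  obtain ⟨c, hc, δ, hδ, hG⟩ := hG n hn
  refine ⟨c / 2, half_pos hc, δ, hδ, ?_⟩
  intro e s r₁ r₂ he hs hsδ hr₁ hr₁₂ hr₂
  have hr₂0 : 0 < r₂ := lt_of_lt_of_le hr₁ hr₁₂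
  set K : ℝ := max s r₂ with hK
  have hK0 : 0 < K := lt_of_lt_of_le hr₂0 (le_max_right _ _)
  have hK3 : 0 < K ^ 3 := pow_pos hK0 3
  obtain ⟨-, hcont⟩ := hP n (by omega) e he s hs
  -- the function
  set h : ℝ → ℝ := fun t => PD e s t / t - c / (2 * K ^ 3) * t ^ 2 with hh
  have hhc : ContinuousOn h (Ioi 0) := by
    refine ContinuousOn.sub (hcont.div continuousOn_id fun x hx => ne_of_gt hx) ?_
    fun_prop
  have hder : ∀ t : ℝ, 0 < t → t ≤ r₂ → t ≠ s →
      HasDerivAt h (t * GG e s t - c / (2 * K ^ 3) * (2 * t)) t := by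
    intro t ht htr hts
    have h1 := (hS n (by omega) e he s t hs ht hts).2
    have h2 : HasDerivAt (fun t => PD e s t / t) (t * GG e s t) t := by
      refine h1.congr_of_eventuallyEq ?_
      have h3 : ∀ᶠ u in 𝓝 t, 0 < u := lt_mem_nhds ht
      have h4 : ∀ᶠ u in 𝓝 t, u ≠ s := isOpen_ne.mem_nhds hts
      filter_upwards [h3, h4] with u hu hu'
      rw [(hS n (by omega) e he s u hs hu hu').1]
      field_simp
    have h5 : HasDerivAt (fun t : ℝ => c / (2 * K ^ 3) * t ^ 2) (c / (2 * K ^ 3) * (2 * t)) t := by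
      have := (hasDerivAt_pow 2 t).const_mul (c / (2 * K ^ 3))
      simpa using this
    exact h2.sub h5
  have hder0 : ∀ t : ℝ, 0 < t → t ≤ r₂ → t ≠ s →
      0 ≤ t * GG e s t - c / (2 * K ^ 3) * (2 * t) := by
    intro t ht htr hts
    have h1 := hG e s t he hs ht hts (le_trans htr hr₂) hsδ
    have hm : max t s ≤ K := max_le (le_trans htr (le_max_right _ _)) (le_max_left _ _)
    have hm0 : 0 < max t s := lt_of_lt_of_le ht (le_max_left _ _)
    have h2 : c / K ^ 3 ≤ GG e s t := by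
      refine le_trans ?_ h1
      exact div_le_div_of_nonneg_left hc.le (pow_pos hm0 3) (pow_le_pow_left₀ hm0.le hm 3)
    have h3 : t * (c / K ^ 3) ≤ t * GG e s t := mul_le_mul_of_nonneg_left h2 ht.le
    have h4 : c / (2 * K ^ 3) * (2 * t) = t * (c / K ^ 3) := by
      field_simp
    linarith
  have key : ∀ a b : ℝ, r₁ ≤ a → a ≤ b → b ≤ r₂ → s ∉ Ioo a b → h a ≤ h b := by
    intro a b ha hab hb hsab
    have ha0 : 0 < a := lt_of_lt_of_le hr₁ ha
    have hm : MonotoneOn h (Icc a b) := by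
      have hne : ∀ x ∈ Ioo a b, x ≠ s := fun x hx hxs => hsab (hxs ▸ hx)
      refine monotoneOn_of_deriv_nonneg (convex_Icc a b)
        (hhc.mono fun x hx => lt_of_lt_of_le ha0 hx.1) ?_ ?_
      · rw [interior_Icc]
        intro x hx
        exact (hder x (lt_trans ha0 hx.1) (le_trans hx.2.le hb)
          (hne x hx)).differentiableAt.differentiableWithinAt
      · rw [interior_Icc]
        intro x hx
        rw [(hder x (lt_trans ha0 hx.1) (le_trans hx.2.le hb) (hne x hx)).deriv]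
        exact hder0 x (lt_trans ha0 hx.1) (le_trans hx.2.le hb) (hne x hx)
    exact hm (left_mem_Icc.2 hab) (right_mem_Icc.2 hab) hab
  have hfin : h r₁ ≤ h r₂ := by
    by_cases hs' : s ∈ Ioo r₁ r₂
    · exact le_trans (key r₁ s le_rfl hs'.1.le hs'.2.le (fun h => lt_irrefl _ h.2))
        (key s r₂ hs'.1.le hs'.2.le le_rfl (fun h => lt_irrefl _ h.1))
    · exact key r₁ r₂ le_rfl hr₁₂ le_rfl hs'
  simp only [hh] at hfin
  have h6 : c / 2 * (r₂ ^ 2 - r₁ ^ 2) / K ^ 3 =
      c / (2 * K ^ 3) * r₂ ^ 2 - c / (2 * K ^ 3) * r₁ ^ 2 := by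
    field_simp
  rw [h6]
  linarith

end Pool.Agent.Helper89.MM
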